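import Pool.Agent.H19.Equi

set_option autoImplicit false

namespace Pool.Agent.Results.MP_d4bf6a_co.Linear

open Pool.Agent.H19.Equi

/-- A graph with equidistant number `a` has at most linearly many edges. -/
theorem result {V : Type} [Fintype V] (G : SimpleGraph V) (a : ℕ) (ha : 1 ≤ a) (h : EqNum G a) :
    2 * G.edgeSet.ncard ≤ Fintype.card V * ((2 * a - 1).choose a - 1) :=
  main G a ha h

end Pool.Agent.Results.MP_d4bf6a_co.Linear
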